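import Mathlib
import Pool.Agent.LibKurosh.Countable

set_option autoImplicit false

/-! Kurosh's group is countable and torsion-free, its space of ends is metrizable, and it is not a
free product of finitely many freely indecomposable groups. -/

namespace Pool.Agent.Results.MP_879d44_al.KuroshEnds

open Pool.Agent.LibKurosh

lemma metrizable_stone (B : Type) [BooleanAlgebra B] [Countable B] :
    TopologicalSpace.MetrizableSpace (Stone B) := by
  have h : Topology.IsEmbedding
      (fun φ : Stone B => (fun b => (show BoundedLatticeHom B Bool from φ) b : B → Bool)) :=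
    { eq_induced := rfl
      injective := fun φ ψ hφψ => DFunLike.coe_injective
        (F := BoundedLatticeHom B Bool) hφψ }
  exact h.metrizableSpace

theorem result :
    Countable Kurosh ∧ (∀ g : Kurosh, g ≠ 1 → ∀ n : ℕ, n ≠ 0 → g ^ n ≠ 1) ∧
      MetrizablyEnded Kurosh ∧ ¬ FiniteKuroshRank Kurosh := by
  refine ⟨inferInstance, ?_, ?_, not_finiteKuroshRank kuroshIso⟩
  · intro g hg n hn h
    exact hg ((pow_eq_one_iff_left hn).mp h)
  · have h1 : Countable (almostInvariant Kurosh) := countable_almostInvariant
    have h2 : Countable (EndAlgebra Kurosh) :=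
      (Quotient.mk_surjective (s := finSetoid Kurosh)).countable
    exact metrizable_stone (EndAlgebra Kurosh)

end Pool.Agent.Results.MP_879d44_al.KuroshEnds
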